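import Pool.Agent.TTC.Stmts

set_option autoImplicit false

/-! Squad TTC, row PLC: places over given primes. -/

open Polynomial NumberField

namespace Pool.Agent.TTC.H40

/-- a place over the prime `p` -/
lemma ex_place (K : Type) [Field K] [NumberField K] (p : ℕ) (hp : p.Prime) :
    ∃ v : FinitePlace K, v (p : K) < 1 ∧ (p : ℝ) ≤ Ideal.absNorm v.maximalIdeal.asIdeal := by
  have hp0 : (p : 𝓞 K) ≠ 0 := Nat.cast_ne_zero.2 hp.ne_zero
  have hne : Ideal.span {(p : 𝓞 K)} ≠ ⊤ := by
    rw [Ne, Ideal.span_singleton_eq_top]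
    intro hu
    have h1 : IsUnit (Algebra.norm ℤ (p : 𝓞 K)) := hu.map _
    have h2 : (Algebra.norm ℤ (p : 𝓞 K)) = (p : ℤ) ^ Module.finrank ℤ (𝓞 K) := by
      have := Algebra.norm_algebraMap (R := ℤ) (S := 𝓞 K) (p : ℤ)
      simpa using this
    rw [h2] at h1
    have hfr : Module.finrank ℤ (𝓞 K) ≠ 0 := by
      rw [RingOfIntegers.rank]
      exact Module.finrank_pos.ne'
    have h3 := (isUnit_pow_iff hfr).1 h1
    rw [Int.isUnit_iff_natAbs_eq] at h3
    have h4 : p = 1 := by simpa using h3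
    exact hp.one_lt.ne' h4
  obtain ⟨M, hM, hle⟩ := Ideal.exists_le_maximal _ hne
  have hmem : (p : 𝓞 K) ∈ M := hle (Ideal.mem_span_singleton_self _)
  have hbot : M ≠ ⊥ := by
    intro h
    rw [h, Ideal.mem_bot] at hmem
    exact hp0 hmem
  let w : IsDedekindDomain.HeightOneSpectrum (𝓞 K) := ⟨M, hM.isPrime, hbot⟩
  refine ⟨FinitePlace.mk w, ?_, ?_⟩
  · rw [FinitePlace.mk_apply]
    have h1 := (FinitePlace.norm_lt_one_iff_mem K w (p : 𝓞 K)).2 hmem
    simpa using h1
  · rw [FinitePlace.maximalIdeal_mk]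
    have hnorm : Ideal.absNorm M ≠ 1 := by
      rw [Ne, Ideal.absNorm_eq_one_iff]
      exact hM.ne_top
    have hmem' : ((Ideal.absNorm M : ℕ) : 𝓞 K) ∈ M := Ideal.absNorm_mem M
    have hdvd : p ∣ Ideal.absNorm M := by
      by_contra hnd
      have hco : IsCoprime (p : ℤ) (Ideal.absNorm M : ℤ) :=
        Nat.isCoprime_iff_coprime.2 ((Nat.Prime.coprime_iff_not_dvd hp).2 hnd)
      obtain ⟨a, b, hab⟩ := hco
      refine hM.ne_top ((Ideal.eq_top_iff_one _).2 ?_)
      have h1 : (1 : 𝓞 K) = (a : 𝓞 K) * (p : 𝓞 K) + (b : 𝓞 K) * ((Ideal.absNorm M : ℕ) : 𝓞 K) := by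
        have := congrArg (Int.cast : ℤ → 𝓞 K) hab
        push_cast at this
        exact this.symm
      rw [h1]
      exact M.add_mem (M.mul_mem_left _ hmem) (M.mul_mem_left _ hmem')
    have hpos : 0 < Ideal.absNorm M := by
      rw [Nat.pos_iff_ne_zero, Ne, Ideal.absNorm_eq_zero_iff]
      exact hbot
    exact_mod_cast Nat.le_of_dvd hpos hdvd

theorem plc : PlcStmt := by
  classical
  intro K _ _ P hP
  have hex : ∀ p : ℕ, ∃ v : FinitePlace K, p.Prime → v (p : K) < 1 ∧
      (p : ℝ) ≤ Ideal.absNorm v.maximalIdeal.asIdeal := by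
    intro p
    by_cases hp : p.Prime
    · obtain ⟨v, hv⟩ := ex_place K p hp
      exact ⟨v, fun _ => hv⟩
    · obtain ⟨v, -⟩ := ex_place K 2 Nat.prime_two
      exact ⟨v, fun h => absurd h hp⟩
  choose v hv using hex
  have hinj : Set.InjOn v P := by
    intro p hp q hq hpq
    by_contra hne
    have h1 := (hv p (hP p hp)).1
    have h2 := (hv q (hP q hq)).1
    rw [← hpq] at h2
    have hco : IsCoprime (p : ℤ) (q : ℤ) :=
      Nat.isCoprime_iff_coprime.2 ((Nat.coprime_primes (hP p hp) (hP q hq)).2 hne)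
    obtain ⟨a, b, hab⟩ := hco
    have h3 : (1 : K) = (a : K) * (p : K) + (b : K) * (q : K) := by
      have := congrArg (Int.cast : ℤ → K) hab
      push_cast at this
      exact this.symm
    have hint : ∀ n : ℤ, v p (n : K) ≤ 1 := by
      intro n
      have h4 := FinitePlace.norm_le_one K (v p).maximalIdeal (n : 𝓞 K)
      have h5 := FinitePlace.norm_embedding_eq (v p) (n : K)
      rw [← h5]
      simpa using h4
    have h6 : v p (1 : K) < 1 := by
      rw [h3]
      refine (FinitePlace.add_le (v p) _ _).trans_lt (max_lt ?_ ?_)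
      · rw [map_mul]
        calc v p (a : K) * v p (p : K) ≤ 1 * v p (p : K) :=
              mul_le_mul_of_nonneg_right (hint a) (apply_nonneg _ _)
          _ < 1 := by rw [one_mul]; exact h1
      · rw [map_mul]
        calc v p (b : K) * v p (q : K) ≤ 1 * v p (q : K) :=
              mul_le_mul_of_nonneg_right (hint b) (apply_nonneg _ _)
          _ < 1 := by rw [one_mul]; exact h2
    rw [map_one] at h6
    exact lt_irrefl _ h6
  refine ⟨P.image v, ?_, ?_⟩
  · intro w hw
    obtain ⟨p, hp, rfl⟩ := Finset.mem_image.1 hw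
    exact ⟨p, hp, (hv p (hP p hp)).1⟩
  · rw [Finset.sum_image hinj]
    refine Finset.sum_le_sum fun p hp => ?_
    refine Real.log_le_log ?_ (hv p (hP p hp)).2
    exact_mod_cast (hP p hp).pos

end Pool.Agent.TTC.H40
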