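import Pool.Agent.TTC.Stmts
import Pool.Agent.Helper19_TTC.DSC

set_option autoImplicit false

/-! Squad TTC, row BND: crude bounds. -/

open Polynomial

namespace Pool.Agent.TTC.H40

lemma coeff_qp_le {H : ℕ} {a : Fin 4 → ℤ} {c : ℤ} (hH : 1 ≤ H) (ha : Box H a)
    (hc : |c| ≤ (H : ℤ) ^ 5) (n : ℕ) : |(qp a c).coeff n| ≤ (H : ℤ) ^ 5 := by
  have hH' : (1 : ℤ) ≤ H := by exact_mod_cast hH
  have h1 : (1 : ℤ) ≤ (H : ℤ) ^ 5 := one_le_pow₀ hH'
  have hp : ∀ k : ℕ, k ≤ 5 → (H : ℤ) ^ k ≤ (H : ℤ) ^ 5 := fun k hk => pow_le_pow_right₀ hH' hk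
  have h0 : |a 0| ≤ (H : ℤ) ^ 5 := (ha 0).trans (hp 1 (by norm_num))
  have h2 : |a 1| ≤ (H : ℤ) ^ 5 := (ha 1).trans (hp 2 (by norm_num))
  have h3 : |a 2| ≤ (H : ℤ) ^ 5 := (ha 2).trans (hp 3 (by norm_num))
  have h4 : |a 3| ≤ (H : ℤ) ^ 5 := (ha 3).trans (hp 4 (by norm_num))
  have hz : (0 : ℤ) ≤ (H : ℤ) ^ 5 := by positivity
  rcases Nat.lt_or_ge n 6 with h | h
  · unfold qp
    simp only [coeff_add, coeff_C_mul, coeff_X_pow, coeff_X, coeff_C]
    interval_cases n <;> norm_num <;> assumption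
  · have h5 : (qp a c).coeff n = 0 := by
      apply coeff_eq_zero_of_natDegree_lt
      rw [H19.natDegree_qp]
      omega
    rw [h5, abs_zero]
    exact hz

lemma det_small' {m : ℕ} (hm : m ≤ 9) (M : Matrix (Fin m) (Fin m) ℤ) (x : ℤ) (hx : 1 ≤ x)
    (h : ∀ i j, |M i j| ≤ x) : |M.det| ≤ (Nat.factorial 9 : ℤ) * x ^ 9 := by
  have h1 := Matrix.det_le (A := M) (abv := IsAbsoluteValue.toAbsoluteValue (abs : ℤ → ℤ)) (x := x) h
  rw [Fintype.card_fin] at h1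
  have h2 : |M.det| ≤ (Nat.factorial m) • x ^ m := h1
  rw [nsmul_eq_mul] at h2
  refine h2.trans (mul_le_mul ?_ (pow_le_pow_right₀ hx hm) (by positivity) (by positivity))
  exact_mod_cast Nat.factorial_le hm

lemma res_small {m n : ℕ} (hm : m + n ≤ 9) (f g : ℤ[X]) (x : ℤ) (hx : 1 ≤ x)
    (hf : ∀ i, |f.coeff i| ≤ x) (hg : ∀ i, |g.coeff i| ≤ x) :
    |resultant f g m n| ≤ (Nat.factorial 9 : ℤ) * x ^ 9 := by
  refine det_small' hm _ x hx fun i j => ?_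
  have h0 : |(0 : ℤ)| ≤ x := by rw [abs_zero]; omega
  unfold sylvester
  rw [Matrix.of_apply]
  refine Fin.addCases (fun j₁ => ?_) (fun j₁ => ?_) j
  · rw [Fin.addCases_left]
    split_ifs
    · exact hg _
    · exact h0
  · rw [Fin.addCases_right]
    split_ifs
    · exact hf _
    · exact h0

theorem bnd : BndStmt := by
  refine ⟨2 * (Nat.factorial 9 : ℝ) * 20 ^ 9, by positivity, ?_⟩
  intro H a c hH ha hc
  have hH' : (1 : ℤ) ≤ H := by exact_mod_cast hH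
  have hHr : (1 : ℝ) ≤ H := by exact_mod_cast hH
  have h1 : (1 : ℤ) ≤ (H : ℤ) ^ 5 := one_le_pow₀ hH'
  have hc0 : |(0 : ℤ)| ≤ (H : ℤ) ^ 5 := by rw [abs_zero]; omega
  have hf : ∀ n, |(qp a c).coeff n| ≤ 20 * (H : ℤ) ^ 5 := fun n =>
    (coeff_qp_le hH ha hc n).trans (by omega)
  have hd1 : ∀ n, |(derivative (qp a 0)).coeff n| ≤ 5 * (H : ℤ) ^ 5 := by
    intro n
    rw [coeff_derivative, abs_mul]
    rcases Nat.lt_or_ge n 5 with h | h
    · have h2 := coeff_qp_le hH ha hc0 (n + 1)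
      have h3 : |((n : ℤ) + 1)| ≤ 5 := by
        rw [abs_of_nonneg (by positivity)]
        omega
      calc _ ≤ (H : ℤ) ^ 5 * 5 := mul_le_mul h2 h3 (abs_nonneg _) (by omega)
        _ = 5 * (H : ℤ) ^ 5 := by ring
    · have h5 : (qp a 0).coeff (n + 1) = 0 := by
        apply coeff_eq_zero_of_natDegree_lt
        rw [H19.natDegree_qp]
        omega
      rw [h5, abs_zero, zero_mul]
      omega
  have hd1' : ∀ n, |(derivative (qp a 0)).coeff n| ≤ 20 * (H : ℤ) ^ 5 := fun n =>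
    (hd1 n).trans (by omega)
  have hd2 : ∀ n, |(derivative (derivative (qp a 0))).coeff n| ≤ 20 * (H : ℤ) ^ 5 := by
    intro n
    rw [coeff_derivative, abs_mul]
    rcases Nat.lt_or_ge n 4 with h | h
    · have h2 := hd1 (n + 1)
      have h3 : |((n : ℤ) + 1)| ≤ 4 := by
        rw [abs_of_nonneg (by positivity)]
        omega
      calc _ ≤ (5 * (H : ℤ) ^ 5) * 4 := mul_le_mul h2 h3 (abs_nonneg _) (by omega)
        _ = 20 * (H : ℤ) ^ 5 := by ring
    · have h5 : (derivative (qp a 0)).coeff (n + 1) = 0 := by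
        rw [coeff_derivative]
        have h6 : (qp a 0).coeff (n + 1 + 1) = 0 := by
          apply coeff_eq_zero_of_natDegree_lt
          rw [H19.natDegree_qp]
          omega
        rw [h6, zero_mul]
      rw [h5, abs_zero, zero_mul]
      omega
  have hr1 := res_small (m := 5) (n := 4) (by norm_num) (qp a c) (derivative (qp a 0))
    (20 * (H : ℤ) ^ 5) (by omega) hf hd1'
  have hr2 := res_small (m := 4) (n := 3) (by norm_num) (derivative (qp a 0))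
    (derivative (derivative (qp a 0))) (20 * (H : ℤ) ^ 5) (by omega) hd1' hd2
  have hpow : (Nat.factorial 9 : ℝ) * (20 * (H : ℝ) ^ 5) ^ 9 * 2
      ≤ 2 * (Nat.factorial 9 : ℝ) * 20 ^ 9 * (H : ℝ) ^ (2 * (Nat.factorial 9 : ℝ) * 20 ^ 9) := by
    have h2 : (H : ℝ) ^ (45 : ℕ) ≤ (H : ℝ) ^ (2 * (Nat.factorial 9 : ℝ) * 20 ^ 9) := by
      rw [← Real.rpow_natCast]
      refine Real.rpow_le_rpow_of_exponent_le hHr ?_
      have : (Nat.factorial 9 : ℝ) = 362880 := by norm_num [Nat.factorial]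
      rw [this]
      norm_num
    calc (Nat.factorial 9 : ℝ) * (20 * (H : ℝ) ^ 5) ^ 9 * 2
        = 2 * (Nat.factorial 9 : ℝ) * 20 ^ 9 * (H : ℝ) ^ (45 : ℕ) := by ring
      _ ≤ _ := mul_le_mul_of_nonneg_left h2 (by positivity)
  have hnn : (0 : ℝ) ≤ (Nat.factorial 9 : ℝ) * (20 * (H : ℝ) ^ 5) ^ 9 := by positivity
  constructor
  · rw [H19.discr_eq]
    refine le_trans ?_ (le_trans (by linarith : (Nat.factorial 9 : ℝ) * (20 * (H : ℝ) ^ 5) ^ 9
      ≤ (Nat.factorial 9 : ℝ) * (20 * (H : ℝ) ^ 5) ^ 9 * 2) hpow)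
    exact_mod_cast hr1
  · refine le_trans ?_ hpow
    unfold wr
    rw [Int.cast_mul, abs_mul]
    have h3 : |((resultant (derivative (qp a 0)) (derivative (derivative (qp a 0))) 4 3 : ℤ) : ℝ)|
        ≤ (Nat.factorial 9 : ℝ) * (20 * (H : ℝ) ^ 5) ^ 9 := by exact_mod_cast hr2
    have h4 : |((2 : ℤ) : ℝ)| = 2 := by norm_num
    rw [h4]
    linarith

end Pool.Agent.TTC.H40
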