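import Pool.Agent.TTC.Stmts
import Pool.Agent.Helper19_TTC.DSC

set_option autoImplicit false

/-! Squad TTC, row SPR: the spread of the roots. -/

open Polynomial

namespace Pool.Agent.TTC.H40

lemma root_le {H : ℕ} {a : Fin 4 → ℤ} {c : ℤ} (hH : 1 ≤ H) (ha : Box H a)
    (hc : |c| ≤ (H : ℤ) ^ 5) (z : ℂ) (hz : ((qp a c).map (Int.castRingHom ℂ)).IsRoot z) :
    ‖z‖ ≤ 2 * H := by
  by_contra hlt
  push Not at hlt
  have hHr : (1 : ℝ) ≤ H := by exact_mod_cast hH
  have h0 : ∀ i : Fin 4, ‖((a i : ℤ) : ℂ)‖ ≤ (H : ℝ) ^ (i.val + 1) := fun i => by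
    rw [Complex.norm_intCast]
    exact_mod_cast ha i
  have hc' : ‖((c : ℤ) : ℂ)‖ ≤ (H : ℝ) ^ 5 := by
    rw [Complex.norm_intCast]
    exact_mod_cast hc
  have he : z ^ 5 = -((a 0 : ℂ) * z ^ 4 + (a 1 : ℂ) * z ^ 3 + (a 2 : ℂ) * z ^ 2 + (a 3 : ℂ) * z
      + (c : ℂ)) := by
    have h1 : ((qp a c).map (Int.castRingHom ℂ)).eval z = 0 := hz
    unfold qp at h1
    simp at h1
    linear_combination h1
  have h1 : ‖z‖ ^ 5 ≤ (H : ℝ) * ‖z‖ ^ 4 + (H : ℝ) ^ 2 * ‖z‖ ^ 3 + (H : ℝ) ^ 3 * ‖z‖ ^ 2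
      + (H : ℝ) ^ 4 * ‖z‖ + (H : ℝ) ^ 5 := by
    rw [← norm_pow, he, norm_neg]
    have e0 := h0 0
    have e1 := h0 1
    have e2 := h0 2
    have e3 := h0 3
    have hzn := norm_nonneg z
    refine (norm_add_le _ _).trans (add_le_add ((norm_add_le _ _).trans (add_le_add
      ((norm_add_le _ _).trans (add_le_add ((norm_add_le _ _).trans (add_le_add ?_ ?_)) ?_)) ?_))
      hc')
    · rw [norm_mul, norm_pow]
      refine mul_le_mul_of_nonneg_right ?_ (pow_nonneg hzn _)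
      simpa using e0
    · rw [norm_mul, norm_pow]
      refine mul_le_mul_of_nonneg_right ?_ (pow_nonneg hzn _)
      simpa using e1
    · rw [norm_mul, norm_pow]
      refine mul_le_mul_of_nonneg_right ?_ (pow_nonneg hzn _)
      simpa using e2
    · rw [norm_mul]
      refine mul_le_mul_of_nonneg_right ?_ hzn
      simpa using e3
  set t := ‖z‖ with ht
  have hHp : (0 : ℝ) < H := by linarith
  have ht0 : 0 < t := by linarith
  -- each term is at most a power of 1/2 times t^5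
  have k1 : (H : ℝ) * t ^ 4 ≤ t ^ 5 / 2 := by
    have : (H : ℝ) ≤ t / 2 := by linarith
    calc (H : ℝ) * t ^ 4 ≤ t / 2 * t ^ 4 := mul_le_mul_of_nonneg_right this (by positivity)
      _ = t ^ 5 / 2 := by ring
  have hh : (H : ℝ) ≤ t / 2 := by linarith
  have k2 : (H : ℝ) ^ 2 * t ^ 3 ≤ t ^ 5 / 4 := by
    calc (H : ℝ) ^ 2 * t ^ 3 ≤ (t / 2) ^ 2 * t ^ 3 :=
          mul_le_mul_of_nonneg_right (pow_le_pow_left₀ hHp.le hh 2) (by positivity)
      _ = t ^ 5 / 4 := by ring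
  have k3 : (H : ℝ) ^ 3 * t ^ 2 ≤ t ^ 5 / 8 := by
    calc (H : ℝ) ^ 3 * t ^ 2 ≤ (t / 2) ^ 3 * t ^ 2 :=
          mul_le_mul_of_nonneg_right (pow_le_pow_left₀ hHp.le hh 3) (by positivity)
      _ = t ^ 5 / 8 := by ring
  have k4 : (H : ℝ) ^ 4 * t ≤ t ^ 5 / 16 := by
    calc (H : ℝ) ^ 4 * t ≤ (t / 2) ^ 4 * t :=
          mul_le_mul_of_nonneg_right (pow_le_pow_left₀ hHp.le hh 4) ht0.le
      _ = t ^ 5 / 16 := by ring
  have k5 : (H : ℝ) ^ 5 ≤ t ^ 5 / 32 := by
    calc (H : ℝ) ^ 5 ≤ (t / 2) ^ 5 := pow_le_pow_left₀ hHp.le hh 5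
      _ = t ^ 5 / 32 := by ring
  have hp : 0 < t ^ 5 := by positivity
  linarith

theorem spr : SprStmt := by
  intro K _ _ H a c hH ha hc
  have hHr : (1 : ℝ) ≤ H := by exact_mod_cast hH
  have hlog : 0 ≤ Real.log (4 * H) := Real.log_nonneg (by linarith)
  unfold SZT.lH
  have hmap : ∀ v : NumberField.InfinitePlace K,
      ((qp a c).map (Int.castRingHom K)).map v.embedding = (qp a c).map (Int.castRingHom ℂ) := by
    intro v
    rw [Polynomial.map_map]
    congr 1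
    exact RingHom.ext_int _ _
  have hspr : SZT.spr ((qp a c).map (Int.castRingHom ℂ)) ≤ 4 * H := by
    unfold SZT.spr
    refine Real.sSup_le ?_ (by positivity)
    rintro r ⟨x, y, hx, hy, rfl⟩
    have h1 := root_le hH ha hc x hx
    have h2 := root_le hH ha hc y hy
    calc ‖x - y‖ ≤ ‖x‖ + ‖y‖ := norm_sub_le _ _
      _ ≤ 4 * H := by linarith
  have hspr0 : 0 ≤ SZT.spr ((qp a c).map (Int.castRingHom ℂ)) := by
    unfold SZT.spr
    refine Real.sSup_nonneg ?_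
    rintro r ⟨x, y, hx, hy, rfl⟩
    exact norm_nonneg _
  have hl : Real.log (SZT.spr ((qp a c).map (Int.castRingHom ℂ))) ≤ Real.log (4 * H) := by
    rcases hspr0.eq_or_lt with h | h
    · rw [← h, Real.log_zero]
      exact hlog
    · exact Real.log_le_log h hspr
  calc ∑ v : NumberField.InfinitePlace K, (v.mult : ℝ)
        * Real.log (SZT.spr (((qp a c).map (Int.castRingHom K)).map v.embedding))
      ≤ ∑ v : NumberField.InfinitePlace K, (v.mult : ℝ) * Real.log (4 * H) := by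
        refine Finset.sum_le_sum fun v _ => ?_
        rw [hmap v]
        exact mul_le_mul_of_nonneg_left hl (Nat.cast_nonneg _)
    _ = (Module.finrank ℚ K : ℝ) * Real.log (4 * H) := by
        rw [← Finset.sum_mul, ← NumberField.InfinitePlace.sum_mult_eq (K := K)]
        push_cast
        rfl

end Pool.Agent.TTC.H40
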