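import Pool.Agent.Helper77_TTC.RNK
import Pool.Agent.Helper19_TTC.DSC
import Pool.Agent.Helper40_TTC.BND
import Pool.Agent.Helper60_TTC.SQF
import Pool.Agent.Helper62_TTC.CUB
import Pool.Agent.Helper40_TTC.PLC
import Pool.Agent.Helper40_TTC.SPR
import Pool.Agent.Helper24_TTC.DEG
import Pool.Agent.Helper30_TTC.CNT
import Pool.Agent.Helper23_TTC.FIB
import Pool.Agent.Helper42_TTC.TOT
import Pool.Agent.Helper18_KDD.FinalP

set_option autoImplicit false

/-! Squad TTC: the final combination. -/

namespace Pool.Agent.TTC.H40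

theorem fib : FibStmt :=
  H23.fib (H30.cnt H77.rnk H19.dsc bnd) H60.sqf H62.cub plc spr KDD.H18.finalP

theorem tot : TotStmt := H42.tot fib H24.deg

end Pool.Agent.TTC.H40
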