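import Pool.Agent.TTC.StmtsC

set_option autoImplicit false

namespace Pool.Agent.TTC.H40

open Polynomial

theorem quin_natDegree {R : Type} [CommRing R] [Nontrivial R] (a : Fin 5 → R) :
    (quin a).natDegree = 5 := by
  unfold quin; compute_degree!

theorem quin_monic {R : Type} [CommRing R] (a : Fin 5 → R) : (quin a).Monic := by
  unfold quin; monicity!

theorem nat : NatStmt := by
  refine ⟨?_, ?_, ?_⟩
  · intro R S _ _ φ a
    have hq : quin (fun i => φ (a i)) = (quin a).map φ := by
      simp [quin, Polynomial.map_add, Polynomial.map_mul, Polynomial.map_pow]
    refine ⟨hq, ?_, ?_⟩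
    · unfold dr
      rw [hq, derivative_map, resultant_map_map]
    · intro m
      unfold er
      have : C ((m : ℕ) : S) = (C ((m : ℕ) : R)).map φ := by simp
      rw [hq, derivative_map, derivative_map, this, ← Polynomial.map_mul, ← Polynomial.map_add,
        resultant_map_map]
  · intro a
    have hd : (quin a).natDegree = 5 := quin_natDegree a
    have hdeg : 0 < (quin a).degree := by
      rw [← natDegree_pos_iff_degree_pos, hd]; norm_num
    have h := resultant_deriv hdeg
    rw [hd, (quin_monic a).leadingCoeff] at h
    unfold dr
    norm_num at h
    exact h.symm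
  · intro a
    have hd : (quin a).natDegree = 5 := quin_natDegree a
    have h0 : quin a ≠ 0 := (quin_monic a).ne_zero
    have hd' : (derivative (quin a)).natDegree = 4 := by
      rw [natDegree_derivative, hd]
    have h1 : dr a = resultant (quin a) (derivative (quin a)) := by
      unfold dr; rw [hd, hd']
    rw [h1, ← not_iff_not, not_not, ← PerfectField.separable_iff_squarefree]
    constructor
    · intro h
      by_contra hc
      exact h (resultant_eq_zero_iff.2 ⟨Or.inl h0, hc⟩)
    · intro h
      exact resultant_ne_zero _ _ h

end Pool.Agent.TTC.H40
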