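import Pool.Agent.Helper40_TTC.Final
import Pool.Agent.Helper40_TTC.NAT
import Pool.Agent.Helper88_TTC.EXL
import Pool.Agent.Helper77_TTC.CU2
import Pool.Agent.Helper27_TTC.BNF
import Pool.Agent.Helper62_TTC.FAC
import Pool.Agent.Helper49_TTC.CN2
import Pool.Agent.Helper92_TTC.FAM

set_option autoImplicit false

/-! Squad TTC: the final combination, part 2. -/

namespace Pool.Agent.TTC.H40

theorem fam : FamStmt :=
  H92.fam nat H88.exl H77.cu2 H27.bnf H62.fac (H49.cn2 H77.rnk) H60.sqf plc spr
    KDD.H18.finalP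

end Pool.Agent.TTC.H40
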