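import Pool.Agent.TTC.StmtsE

set_option autoImplicit false

namespace Pool.Agent.TTC.H40

open Polynomial

/-- all coefficients have total degree at most k -/
def CD {σ : Type} (k : ℕ) (p : (MvPolynomial σ ℤ)[X]) : Prop := ∀ n, (p.coeff n).totalDegree ≤ k

theorem cd_add {σ : Type} {k : ℕ} {p q : (MvPolynomial σ ℤ)[X]} (hp : CD k p) (hq : CD k q) :
    CD k (p + q) := by
  intro n
  rw [coeff_add]
  exact (MvPolynomial.totalDegree_add _ _).trans (max_le (hp n) (hq n))

theorem td_nat {σ : Type} (c : ℕ) : ((c : MvPolynomial σ ℤ)).totalDegree = 0 := by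
  have h : (c : MvPolynomial σ ℤ) = MvPolynomial.C (c : ℤ) := by simp
  rw [h, MvPolynomial.totalDegree_C]

theorem cd_der {σ : Type} {k : ℕ} {p : (MvPolynomial σ ℤ)[X]} (hp : CD k p) :
    CD k (derivative p) := by
  intro n
  rw [coeff_derivative]
  refine (MvPolynomial.totalDegree_mul _ _).trans ?_
  have h : ((n : MvPolynomial σ ℤ) + 1).totalDegree = 0 := by
    have := td_nat (σ := σ) (n + 1)
    push_cast at this
    exact this
  rw [h]
  exact hp _

theorem cd_cmul {σ : Type} {k : ℕ} {p : (MvPolynomial σ ℤ)[X]} (c : ℕ) (hp : CD k p) :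
    CD k (C (c : MvPolynomial σ ℤ) * p) := by
  intro n
  rw [coeff_C_mul]
  refine (MvPolynomial.totalDegree_mul _ _).trans ?_
  rw [td_nat]
  simpa using hp n

theorem cd_term {σ : Type} {k : ℕ} {P : MvPolynomial σ ℤ} (hP : P.totalDegree ≤ k) (n : ℕ) :
    CD k (C P * X ^ n) := by
  intro i
  rw [coeff_C_mul_X_pow]
  split_ifs
  · exact hP
  · simp

theorem cd_quin {σ : Type} {k : ℕ} {F : Fin 5 → MvPolynomial σ ℤ} (hF : ∀ i, (F i).totalDegree ≤ k) :
    CD k (quin F) := by
  unfold quin
  have h5 : CD k (X ^ 5 : (MvPolynomial σ ℤ)[X]) := by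
    have := cd_term (σ := σ) (k := k) (P := 1) (by simp) 5
    simpa using this
  have h1 : CD k (C (F 3) * X) := by
    have := cd_term (hF 3) 1
    simpa using this
  have h0 : CD k (C (F 4)) := by
    have := cd_term (hF 4) 0
    simpa using this
  exact cd_add (cd_add (cd_add (cd_add (cd_add h5 (cd_term (hF 0) 4)) (cd_term (hF 1) 3))
    (cd_term (hF 2) 2)) h1) h0

theorem res_deg {σ : Type} {k : ℕ} {p q : (MvPolynomial σ ℤ)[X]} (hp : CD k p) (hq : CD k q)
    (a b : ℕ) : (resultant p q a b).totalDegree ≤ (a + b) * k := by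
  classical
  have hent : ∀ i j, (sylvester p q a b i j).totalDegree ≤ k := by
    intro i j
    unfold sylvester
    rw [Matrix.of_apply]
    induction j using Fin.addCases with
    | left j =>
      rw [Fin.addCases_left]
      split_ifs
      · exact hq _
      · simp
    | right j =>
      rw [Fin.addCases_right]
      split_ifs
      · exact hp _
      · simp
  unfold resultant
  rw [Matrix.det_apply]
  refine MvPolynomial.totalDegree_finsetSum_le fun σ' _ => ?_
  have h1 : (∏ i, sylvester p q a b (σ' i) i).totalDegree ≤ (a + b) * k := by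
    refine (MvPolynomial.totalDegree_finsetProd _ _).trans ?_
    refine (Finset.sum_le_sum fun i _ => hent _ _).trans ?_
    simp
  rcases Int.units_eq_one_or (Equiv.Perm.sign σ') with h | h
  · rw [h, one_smul]; exact h1
  · rw [h]
    have : ((-1 : ℤˣ) • ∏ i, sylvester p q a b (σ' i) i) = -∏ i, sylvester p q a b (σ' i) i := by
      simp [Units.smul_def]
    rw [this, MvPolynomial.totalDegree_neg]
    exact h1

theorem mdg : MdgStmt := by
  intro m k F hF
  have hq := cd_quin hF
  exact ⟨res_deg hq (cd_der hq) 5 4, fun j =>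
    res_deg (cd_der hq) (cd_add (cd_der (cd_der hq)) (cd_cmul j hq)) 4 5⟩

end Pool.Agent.TTC.H40
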