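import Pool.Agent.TTC.StmtsE

set_option autoImplicit false

namespace Pool.Agent.TTC.H40

open Polynomial

theorem szb : SzbStmt := by
  intro m R S τ hR hτ hS
  classical
  set SF : Fin m → Finset ℂ := fun j => (Finset.Icc (-(S j : ℤ)) (S j : ℤ)).image (fun z : ℤ => (z : ℂ))
    with hSF
  have hcard : ∀ j, (SF j).card = 2 * S j + 1 := by
    intro j
    rw [hSF]
    simp only
    rw [Finset.card_image_of_injective _ Int.cast_injective, Int.card_Icc]
    omega
  have key := MvPolynomial.schwartz_zippel_sup_sum hR SF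
  have hsup : (R.support.sup fun s => ∑ i, (s i / (SF i).card : ℚ≥0)) ≤ (R.totalDegree : ℚ≥0) / τ := by
    refine Finset.sup_le fun s hs => ?_
    have h1 : ∀ i ∈ Finset.univ, ((s i : ℚ≥0) / (SF i).card) ≤ (s i : ℚ≥0) / τ := by
      intro i _
      have h2 : (τ : ℚ≥0) ≤ (SF i).card := by rw [hcard]; exact_mod_cast hS i
      have h3 : (0 : ℚ≥0) < τ := by exact_mod_cast hτ
      exact div_le_div_of_nonneg_left zero_le h3 h2
    refine (Finset.sum_le_sum h1).trans ?_
    rw [← Finset.sum_div]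
    have h4 : (∑ i, (s i : ℚ≥0)) ≤ (R.totalDegree : ℚ≥0) := by
      have h5 := MvPolynomial.le_totalDegree hs
      have h6 : (s.sum fun _ e => e) = ∑ i, s i := Finsupp.sum_fintype _ _ (fun _ => rfl)
      rw [h6] at h5
      exact_mod_cast h5
    gcongr
  have hcount : {b : Fin m → ℤ | (∀ j, |b j| ≤ (S j : ℤ)) ∧
      MvPolynomial.eval (fun j => ((b j : ℤ) : ℂ)) R = 0}.ncard
      ≤ ((Fintype.piFinset SF).filter fun x => MvPolynomial.eval x R = 0).card := by
    rw [← Set.ncard_coe_finset]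
    refine Set.ncard_le_ncard_of_injOn (fun b => fun j => ((b j : ℤ) : ℂ)) ?_ ?_ (Finset.finite_toSet _)
    · rintro b ⟨hb, hb0⟩
      simp only [Finset.coe_filter, Fintype.mem_piFinset, Set.mem_ofPred_eq]
      refine ⟨fun j => ?_, hb0⟩
      exact Finset.mem_image.2 ⟨b j, Finset.mem_Icc.2 (abs_le.1 (hb j)), rfl⟩
    · intro b _ b' _ h
      funext j
      have h2 : ((b j : ℤ) : ℂ) = ((b' j : ℤ) : ℂ) := congrFun h j
      exact_mod_cast h2
  have hprod : (∏ i, ((SF i).card : ℚ≥0)) = ((∏ j, (2 * S j + 1) : ℕ) : ℚ≥0) := by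
    push_cast
    exact Finset.prod_congr rfl fun j _ => by rw [hcard]; push_cast; ring
  have h7 := key.trans hsup
  rw [hprod] at h7
  have hpos : (0 : ℚ≥0) < ((∏ j, (2 * S j + 1) : ℕ) : ℚ≥0) := by
    exact_mod_cast Finset.prod_pos fun j _ => by omega
  have hτ0 : (0 : ℚ≥0) < τ := by exact_mod_cast hτ
  rw [div_le_div_iff₀ hpos hτ0] at h7
  have h8 : τ * ((Fintype.piFinset SF).filter fun x => MvPolynomial.eval x R = 0).card
      ≤ R.totalDegree * ∏ j, (2 * S j + 1) := by
    have h9 : ((((Fintype.piFinset SF).filter fun x => MvPolynomial.eval x R = 0).card * τ : ℕ) : ℚ≥0)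
        ≤ ((R.totalDegree * ∏ j, (2 * S j + 1) : ℕ) : ℚ≥0) := by
      push_cast
      push_cast at h7
      exact h7
    have h10 := Nat.cast_le.1 h9
    rw [mul_comm]
    exact h10
  exact (Nat.mul_le_mul_left _ hcount).trans h8

end Pool.Agent.TTC.H40
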