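import Pool.Agent.Helper40_TTC.Final2
import Pool.Agent.Helper22_TTC.SB1
import Pool.Agent.Helper49_TTC.SB2
import Pool.Agent.Helper15_TTC.DIR
import Pool.Agent.Helper92_TTC.NDG
import Pool.Agent.Helper40_TTC.MDG
import Pool.Agent.Helper97_TTC.LSZ
import Pool.Agent.Helper40_TTC.SZB
import Pool.Agent.Helper10_TTC.EXC
import Pool.Agent.Helper30_TTC.LIN
import Pool.Agent.Helper49_TTC.MUL

set_option autoImplicit false

/-! Squad TTC: the final combination, part 3. -/

namespace Pool.Agent.TTC.H40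

theorem lin : LinStmt :=
  H30.lin nat H88.exl H22.sb1 H49.sb2 H15Dir.dir H92.ndg mdg H97.lsz H10.exc fam

theorem mul : MulStmt := H49.mul H22.sb1 szb lin

end Pool.Agent.TTC.H40
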