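import Pool.Agent.Helper40_TTC.Final3
import Pool.Agent.Helper40_TTC.MU6
import Pool.Agent.Helper51_TTC.NA6
import Pool.Agent.Helper1_TTC.CR6
import Pool.Agent.Helper22_TTC.SF6
import Pool.Agent.Helper36_TTC.MD6
import Pool.Agent.Helper52_TTC.BN6
import Pool.Agent.Helper53_TTC.OM1
import Pool.Agent.Helper59_TTC.OM2
import Pool.Agent.Helper50_TTC.SIM
import Pool.Agent.Helper75_TTC.LO6
import Pool.Agent.Helper3_TTC.HT6
import Pool.Agent.Helper81_TTC.PL6
import Pool.Agent.Helper46_TTC.FA6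
import Pool.Agent.Helper62_TTC.LI6

set_option autoImplicit false

/-! Squad TTC: the final combination, part 4 (sextics). -/

namespace Pool.Agent.TTC.H40

theorem na6 : Na6Stmt := H51.na6

theorem cr6 : Cr6Stmt := H1.cr6

theorem sf6 : Sf6Stmt := H22.sf6 na6 cr6

theorem fam6 : Fam6Stmt :=
  H46.fam6 na6 sf6 H52.bn6 H62.fac (H49.cn2 H77.rnk) H53.om1 (H50.sim na6 cr6)
    (H75.lo6 na6 cr6 H59.om2) (H3.ht6 na6) H81.pl6 KDD.H18.finalP

theorem lin6 : Lin6Stmt := H62.lin6 na6 H22.sb1 H49.sb2 H15Dir.dir H92.ndg H36.md6 H97.lsz fam6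

theorem mul6 : Mul6Stmt := mu6 H22.sb1 szb lin6

end Pool.Agent.TTC.H40
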