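import Pool.Agent.TTC.StmtsG

/-!
# Squad TTC, row MU7: union bound over the lines (port of row MUL by helper49)
-/

set_option autoImplicit false

namespace Pool.Agent.TTC.H40

open Polynomial Pool.Agent.TTC

theorem mu7 (h1 : Sb1Stmt) (h2 : SzbStmt) (h3 : Lin7Stmt) : Mul7Stmt := by
  classical
  intro d k m δ hδ
  obtain ⟨B, L, K, C, hC, hL, hlin⟩ := h3 d k m δ hδ
  have hL0 : (0 : ℝ) < (L : ℝ) := by exact_mod_cast hL
  refine ⟨B, (5 * (L : ℝ)) ^ m * (C + 3 * K), by positivity, ?_⟩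
  intro H F T i₀ hT hS hN
  have hH : 1 ≤ H := (hT i₀).1.trans (hT i₀).2.1
  have hH1 : (1 : ℝ) ≤ (H : ℝ) := by exact_mod_cast hH
  have hHd : (1 : ℝ) ≤ (H : ℝ) ^ δ := Real.one_le_rpow hH1 hδ.le
  obtain ⟨a, R, ha, hR0, hRd, hb⟩ := hlin H F i₀ hH hS hN
  obtain ⟨S, hSdef⟩ : ∃ S : Fin m → ℕ, ∀ j, S j = 2 * L * T (i₀.succAbove j) := ⟨_, fun _ => rfl⟩
  set BB : Finset (Fin m → ℤ) := Fintype.piFinset fun j => Finset.Icc (-(S j : ℤ)) (S j) with hBB
  have hBBmem : ∀ b, b ∈ BB ↔ ∀ j, |b j| ≤ (S j : ℤ) := by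
    intro b
    rw [hBB, Fintype.mem_piFinset]
    refine forall_congr' fun j => ?_
    rw [Finset.mem_Icc, abs_le]
  have hBBcard : BB.card = ∏ j, (2 * S j + 1) := by
    rw [hBB, Fintype.card_piFinset]
    refine Finset.prod_congr rfl fun j _ => ?_
    rw [Int.card_Icc]
    omega
  set Bb : Finset (Fin m → ℤ) :=
    BB.filter (fun b => MvPolynomial.eval (fun j => ((b j : ℤ) : ℂ)) R = 0) with hBb
  set Bg : Finset (Fin m → ℤ) :=
    BB.filter (fun b => ¬ MvPolynomial.eval (fun j => ((b j : ℤ) : ℂ)) R = 0) with hBg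
  obtain ⟨Ex, hEx⟩ : ∃ Ex : (Fin m → ℤ) → Finset ℤ, ∀ b, Ex b = (Finset.Icc (-(H : ℤ)) H).filter
      (fun s => ¬ Good7 d B (fun i => MvPolynomial.eval (pt i₀ a s b) (F i))) :=
    ⟨_, fun _ => rfl⟩
  set U : Finset (Fin (m + 1) → ℤ) :=
    Bg.biUnion (fun b => (Ex b).image (fun s => pt i₀ a s b)) ∪
    Bb.biUnion (fun b => (Finset.Icc (-(T i₀ : ℤ)) (T i₀)).image (fun s => pt i₀ a s b)) with hU
  have hT0 : 1 ≤ T i₀ := (hT i₀).1
  -- the set is contained in U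
  have hsub : {t : Fin (m + 1) → ℤ | (∀ i, |t i| ≤ (T i : ℤ)) ∧
        ¬ Good7 d B (fun i => MvPolynomial.eval t (F i))} ⊆ (U : Set (Fin (m + 1) → ℤ)) := by
    intro t ht
    obtain ⟨ht1, ht2⟩ := ht
    have hpt := h1.2.2.2.2 m i₀ a ℤ t
    set b : Fin m → ℤ := fun j => t (i₀.succAbove j) - ((a j : ℕ) : ℤ) * t i₀ with hbdef
    have hbB : b ∈ BB := by
      rw [hBBmem]
      intro j
      have e1 : |b j| ≤ |t (i₀.succAbove j)| + |((a j : ℕ) : ℤ) * t i₀| := abs_sub _ _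
      have e2 : |((a j : ℕ) : ℤ) * t i₀| ≤ (L : ℤ) * (T i₀ : ℤ) := by
        rw [abs_mul]
        refine mul_le_mul ?_ (ht1 i₀) (abs_nonneg _) (Int.natCast_nonneg _)
        rw [abs_of_nonneg (Int.natCast_nonneg _)]
        exact_mod_cast ha j
      have e3 := ht1 (i₀.succAbove j)
      have e4 : (T i₀ : ℤ) ≤ (T (i₀.succAbove j) : ℤ) := by exact_mod_cast (hT _).2.2
      have e5 : (1 : ℤ) ≤ (L : ℤ) := by exact_mod_cast hL
      have e6 : (0 : ℤ) ≤ (T (i₀.succAbove j) : ℤ) := Int.natCast_nonneg _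
      rw [hSdef j]
      push_cast
      nlinarith
    rw [Finset.mem_coe, hU]
    by_cases hbad : MvPolynomial.eval (fun j => ((b j : ℤ) : ℂ)) R = 0
    · refine Finset.mem_union_right _ ?_
      rw [Finset.mem_biUnion]
      refine ⟨b, Finset.mem_filter.mpr ⟨hbB, hbad⟩, ?_⟩
      rw [Finset.mem_image]
      exact ⟨t i₀, Finset.mem_Icc.mpr (abs_le.mp (ht1 i₀)), hpt⟩
    · refine Finset.mem_union_left _ ?_
      rw [Finset.mem_biUnion]
      refine ⟨b, Finset.mem_filter.mpr ⟨hbB, hbad⟩, ?_⟩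
      rw [Finset.mem_image]
      refine ⟨t i₀, ?_, hpt⟩
      rw [hEx, Finset.mem_filter]
      refine ⟨Finset.mem_Icc.mpr (abs_le.mp ((ht1 i₀).trans ?_)), ?_⟩
      · exact_mod_cast (hT i₀).2.1
      · rw [hpt]; exact ht2
  -- cardinalities
  have hExc : ∀ b ∈ Bg, ((Ex b).card : ℝ) ≤ C * (H : ℝ) ^ δ := by
    intro b hbg
    obtain ⟨hb1, hb2⟩ := Finset.mem_filter.mp hbg
    have h4 := hb b (fun j => ((hBBmem b).mp hb1 j).trans ?_) hb2
    · have h5 : {s : ℤ | |s| ≤ (H : ℤ) ∧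
          ¬ Good7 d B (fun i => MvPolynomial.eval (pt i₀ a s b) (F i))} = (Ex b : Set ℤ) := by
        ext s
        rw [hEx, Finset.coe_filter]
        simp only [Set.mem_ofPred_eq, Finset.mem_Icc, abs_le]
      rw [h5, Set.ncard_coe_finset] at h4
      exact h4
    · rw [hSdef j]
      have e1 : (T (i₀.succAbove j) : ℤ) ≤ (H : ℤ) := by exact_mod_cast (hT _).2.1
      push_cast
      have e2 : (0 : ℤ) ≤ 2 * (L : ℤ) := by positivity
      nlinarith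
  have hUcard : U.card ≤ ∑ b ∈ Bg, (Ex b).card + Bb.card * (2 * T i₀ + 1) := by
    rw [hU]
    refine (Finset.card_union_le _ _).trans (Nat.add_le_add ?_ ?_)
    · refine Finset.card_biUnion_le.trans (Finset.sum_le_sum fun b _ => Finset.card_image_le)
    · refine Finset.card_biUnion_le.trans ?_
      have h4 : ∑ b ∈ Bb, ((Finset.Icc (-(T i₀ : ℤ)) (T i₀)).image (fun s => pt i₀ a s b)).card
          ≤ ∑ b ∈ Bb, (2 * T i₀ + 1) := by
        refine Finset.sum_le_sum fun b _ => Finset.card_image_le.trans ?_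
        rw [Int.card_Icc]
        omega
      rwa [Finset.sum_const, smul_eq_mul] at h4
  have hBbc : T i₀ * Bb.card ≤ K * BB.card := by
    have h4 := h2 m R S (T i₀) hR0 hT0 (fun j => by
      rw [hSdef j]
      have e1 := (hT (i₀.succAbove j)).2.2
      have e2 : T (i₀.succAbove j) ≤ 2 * (2 * L * T (i₀.succAbove j)) := by nlinarith
      omega)
    have h5 : {b : Fin m → ℤ | (∀ j, |b j| ≤ (S j : ℤ)) ∧
      MvPolynomial.eval (fun j => ((b j : ℤ) : ℂ)) R = 0} = (Bb : Set (Fin m → ℤ)) := by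
      ext b
      rw [hBb, Finset.coe_filter]
      simp only [Set.mem_ofPred_eq]
      rw [hBBmem b]
    rw [h5, Set.ncard_coe_finset, ← hBBcard] at h4
    exact h4.trans (Nat.mul_le_mul_right _ hRd)
  have hBBle : ((BB.card : ℕ) : ℝ) ≤ (5 * (L : ℝ)) ^ m * ∏ j : Fin m, (T (i₀.succAbove j) : ℝ) := by
    rw [hBBcard]
    push_cast
    have h4 : ∏ j : Fin m, (2 * (S j : ℝ) + 1) ≤ ∏ j : Fin m, (5 * (L : ℝ) * (T (i₀.succAbove j) : ℝ)) := by
      refine Finset.prod_le_prod (fun j _ => by positivity) fun j _ => ?_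
      rw [hSdef j]
      push_cast
      have e1 : (1 : ℝ) ≤ (T (i₀.succAbove j) : ℝ) := by exact_mod_cast (hT _).1
      have e2 : (1 : ℝ) ≤ (L : ℝ) := by exact_mod_cast hL
      nlinarith
    refine h4.trans (le_of_eq ?_)
    rw [Finset.prod_mul_distrib, Finset.prod_const, Finset.card_univ, Fintype.card_fin]
  have hncard : ({t : Fin (m + 1) → ℤ | (∀ i, |t i| ≤ (T i : ℤ)) ∧
        ¬ Good7 d B (fun i => MvPolynomial.eval t (F i))}.ncard : ℝ) ≤ (U.card : ℝ) := by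
    have h4 := Set.ncard_le_ncard hsub (Finset.finite_toSet U)
    rw [Set.ncard_coe_finset] at h4
    exact_mod_cast h4
  have hT0' : (1 : ℝ) ≤ (T i₀ : ℝ) := by exact_mod_cast hT0
  have hUr : (U.card : ℝ) ≤ (Bg.card : ℝ) * (C * (H : ℝ) ^ δ) + (Bb.card : ℝ) * (2 * (T i₀ : ℝ) + 1) := by
    have h4 : (U.card : ℝ) ≤ ∑ b ∈ Bg, ((Ex b).card : ℝ) + (Bb.card : ℝ) * (2 * (T i₀ : ℝ) + 1) := by
      exact_mod_cast hUcard
    have h5 : ∑ b ∈ Bg, ((Ex b).card : ℝ) ≤ ∑ b ∈ Bg, C * (H : ℝ) ^ δ := Finset.sum_le_sum hExc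
    rw [Finset.sum_const, nsmul_eq_mul] at h5
    linarith
  have hBgle : (Bg.card : ℝ) ≤ (BB.card : ℝ) := by
    exact_mod_cast Finset.card_filter_le _ _
  have hBbr : (T i₀ : ℝ) * (Bb.card : ℝ) ≤ K * (BB.card : ℝ) := by exact_mod_cast hBbc
  have hBB0 : (0 : ℝ) ≤ (BB.card : ℝ) := Nat.cast_nonneg _
  have hK0 : (0 : ℝ) ≤ (K : ℝ) := Nat.cast_nonneg _
  have hprod : ∏ i, (T i : ℝ) = (T i₀ : ℝ) * ∏ j : Fin m, (T (i₀.succAbove j) : ℝ) :=
    Fin.prod_univ_succAbove _ i₀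
  rw [hprod]
  set P : ℝ := ∏ j : Fin m, (T (i₀.succAbove j) : ℝ) with hP
  have hP0 : 0 ≤ P := Finset.prod_nonneg fun j _ => Nat.cast_nonneg _
  set Hd : ℝ := (H : ℝ) ^ δ with hHdd
  have step1 : (U.card : ℝ) * (T i₀ : ℝ) ≤ (T i₀ : ℝ) * ((BB.card : ℝ) * ((C + 3 * K) * Hd)) := by
    have e1 : (Bg.card : ℝ) * (C * Hd) ≤ (BB.card : ℝ) * (C * Hd) :=
      mul_le_mul_of_nonneg_right hBgle (by positivity)
    have e2 : (Bb.card : ℝ) * (2 * (T i₀ : ℝ) + 1) ≤ 3 * (K * (BB.card : ℝ)) := by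
      have e3 : (Bb.card : ℝ) * (2 * (T i₀ : ℝ) + 1) ≤ (Bb.card : ℝ) * (3 * (T i₀ : ℝ)) :=
        mul_le_mul_of_nonneg_left (by linarith) (Nat.cast_nonneg _)
      linarith
    have e4 : 3 * (K * (BB.card : ℝ)) ≤ 3 * (K * (BB.card : ℝ)) * Hd :=
      le_mul_of_one_le_right (by positivity) hHd
    have e5 : (U.card : ℝ) ≤ (BB.card : ℝ) * ((C + 3 * K) * Hd) := by linarith
    have e6 := mul_le_mul_of_nonneg_right e5 (by linarith : (0 : ℝ) ≤ (T i₀ : ℝ))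
    linarith
  have step2 : (T i₀ : ℝ) * ((BB.card : ℝ) * ((C + 3 * K) * Hd)) ≤
      (T i₀ : ℝ) * (((5 * (L : ℝ)) ^ m * P) * ((C + 3 * K) * Hd)) := by
    refine mul_le_mul_of_nonneg_left ?_ (by linarith)
    exact mul_le_mul_of_nonneg_right hBBle (by positivity)
  have step0 := mul_le_mul_of_nonneg_right hncard (by linarith : (0 : ℝ) ≤ (T i₀ : ℝ))
  calc _ ≤ (U.card : ℝ) * (T i₀ : ℝ) := step0
    _ ≤ _ := step1
    _ ≤ _ := step2
    _ = (5 * (L : ℝ)) ^ m * (C + 3 * K) * Hd * ((T i₀ : ℝ) * P) := by ring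

end Pool.Agent.TTC.H40
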