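import Pool.Agent.Helper40_TTC.Final4
import Pool.Agent.Helper40_TTC.MU7
import Pool.Agent.Helper49_TTC.NA7
import Pool.Agent.Helper15_TTC.CR7
import Pool.Agent.Helper30_TTC.MD7
import Pool.Agent.Helper92_TTC.BN7
import Pool.Agent.Helper88_TTC.OM7
import Pool.Agent.Helper35_TTC.LO7
import Pool.Agent.Helper50_TTC.SI7
import Pool.Agent.Helper51_TTC.PG7
import Pool.Agent.Helper36_TTC.FA7
import Pool.Agent.Helper34_TTC.LI7

set_option autoImplicit false

/-! Squad TTC: the final combination, part 5 (sextics, splitting fields). -/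

namespace Pool.Agent.TTC.H40

theorem na7 : Na7Stmt := H49.na7

theorem cr7 : Cr7Stmt := H15Cr7.cr7

theorem fam7 : Fam7Stmt :=
  H36F.fam7 na6 na7 sf6 H92.bn7 H62.fac (H49.cn2 H77.rnk) H53.om1 (H50.si7 na6 na7 cr7)
    (H35.lo7 na6 na7 cr7 H88.om7) (H3.ht6 na6) H51.pg7 H81.pl6 KDD.H18.finalP

theorem lin7 : Lin7Stmt := H34.lin7 na6 na7 H22.sb1 H49.sb2 H15Dir.dir H92.ndg H30.md7 H97.lsz fam7

theorem mul7 : Mul7Stmt := mu7 H22.sb1 szb lin7

end Pool.Agent.TTC.H40
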